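import Mathlib

namespace Pool.Agent.MP_0d7d6c_co

open Matrix Finset Filter

/-- Laplacian of a weight matrix. -/
noncomputable def lap {V : Type} [Fintype V] [DecidableEq V] (W : Matrix V V ℝ) : Matrix V V ℝ :=
  diagonal (fun i => ∑ j, W i j) - W

/-- Some weight matrix on `N` vertices, vanishing on a `k`-set, has characteristic function
`x * f x`. -/
def RealKN (k N : ℕ) (f : ℝ → ℝ) : Prop :=
  ∃ (V : Type) (_ : Fintype V) (_ : DecidableEq V) (Z : Finset V) (W : Matrix V V ℝ),
    Fintype.card V = N ∧ Z.card = k ∧ (∀ i j, W i j = W j i) ∧ (∀ i j, 0 ≤ W i j) ∧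
    (∀ i, W i i = 0) ∧ (∀ i ∈ Z, ∀ j ∈ Z, W i j = 0) ∧
    ∀ᶠ x in atTop, (scalar V x - lap W).det = x * f x

section Join

variable {V K : Type} [Fintype V] [DecidableEq V] [Fintype K] [DecidableEq K]

/-- Join of two weight matrices with weights depending only on the second vertex. -/
def join (W : Matrix V V ℝ) (α : K → ℝ) (U : Matrix K K ℝ) : Matrix (V ⊕ K) (V ⊕ K) ℝ :=
  fromBlocks W (of fun _ j => α j) (of fun i _ => α i) U

lemma row_sum (W : Matrix V V ℝ) (y : ℝ) (i : V) : ∑ j, (scalar V y - lap W) i j = y := by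
  simp [lap, sum_sub_distrib, diagonal_apply]

lemma join_eq (W : Matrix V V ℝ) (α : K → ℝ) (U : Matrix K K ℝ) (x : ℝ) :
    scalar (V ⊕ K) x - lap (join W α U) =
      fromBlocks (scalar V (x - ∑ j, α j) - lap W) (of fun _ j => α j) (of fun i _ => α i)
        (scalar K x - diagonal (fun i => Fintype.card V * α i + ∑ j, U i j) + U) := by
  ext (i | i) (j | j)
  · by_cases h : i = j
    · subst h
      simp [lap, join, Fintype.sum_sum_type]
      ring
    · simp [lap, join, h]
  · simp [lap, join]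
  · simp [lap, join]
  · by_cases h : i = j
    · subst h
      simp [lap, join, Fintype.sum_sum_type]
      ring
    · simp [lap, join, h]

lemma det_block (A : Matrix V V ℝ) {y : ℝ} (hy : y ≠ 0) (hA : ∀ i, ∑ j, A i j = y) (α : K → ℝ)
    (Q : Matrix K K ℝ) :
    (fromBlocks A (of fun _ j => α j) (of fun i _ => α i) Q).det =
      A.det * (Q - of fun i j => Fintype.card V * α i * α j / y).det := by
  have h1 : fromBlocks A (of fun _ j => α j) (of fun i _ => α i) Q =
      fromBlocks A 0 0 1 * fromBlocks 1 (of fun _ j => α j / y) (of fun i _ => α i) Q := by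
    rw [fromBlocks_multiply]
    simp only [Matrix.mul_one, Matrix.zero_mul, add_zero, zero_add, Matrix.one_mul]
    congr 1
    ext i j
    simp only [of_apply, mul_apply]
    rw [← sum_mul, hA]
    field_simp
  rw [h1, det_mul, det_fromBlocks_zero₂₁, det_one, mul_one, det_fromBlocks_one₁₁]
  congr 3
  ext i j
  simp only [of_apply, mul_apply, sum_const, card_univ, nsmul_eq_mul]
  ring

lemma det_join (W : Matrix V V ℝ) (α : K → ℝ) (U : Matrix K K ℝ) {x : ℝ}
    (hx : x - ∑ j, α j ≠ 0) :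
    (scalar (V ⊕ K) x - lap (join W α U)).det =
      (scalar V (x - ∑ j, α j) - lap W).det *
        ((scalar K x - diagonal (fun i => Fintype.card V * α i + ∑ j, U i j) + U) -
          of fun i j => Fintype.card V * α i * α j / (x - ∑ j, α j)).det := by
  rw [join_eq, det_block _ hx (row_sum W _)]

end Join

lemma eventually_shift {P : ℝ → Prop} (h : ∀ᶠ x in atTop, P x) (a : ℝ) :
    ∀ᶠ x in atTop, P (x - a) :=
  (tendsto_atTop_add_const_right atTop (-a) tendsto_id).eventually h

lemma RealKN.congr {k N : ℕ} {f g : ℝ → ℝ} (h : RealKN k N f) (hfg : ∀ x, f x = g x) :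
    RealKN k N g := by
  have : f = g := funext hfg
  rwa [← this]

lemma RealKN.cone {k N : ℕ} {f : ℝ → ℝ} (h : RealKN k N f) {a : ℝ} (ha : 0 ≤ a) :
    RealKN k (N + 1) (fun x => f (x - a) * (x - (N + 1) * a)) := by
  obtain ⟨V, _, _, Z, W, hV, hZ, hsymm, hnn, hdiag, hZW, hdet⟩ := h
  refine ⟨V ⊕ Unit, inferInstance, inferInstance, Z.map Function.Embedding.inl,
    join W (fun _ => a) 0, by simp [hV], by simp [hZ], ?_, ?_, ?_, ?_, ?_⟩
  · rintro (i | i) (j | j)
    · simp [join, hsymm i]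
    · simp [join]
    · simp [join]
    · simp [join]
  · rintro (i | i) (j | j) <;> simp [join, hnn, ha]
  · rintro (i | i) <;> simp [join, hdiag]
  · intro i hi j hj
    obtain ⟨i, hi', rfl⟩ := mem_map.1 hi
    obtain ⟨j, hj', rfl⟩ := mem_map.1 hj
    simp [join, hZW i hi' j hj']
  · filter_upwards [eventually_shift hdet a, eventually_gt_atTop a] with x hx hxa
    have hne : x - a ≠ 0 := by linarith
    have hs : ∑ _j : Unit, a = a := by simp
    rw [det_join _ _ _ (by rw [hs]; exact hne), hs, hx, det_unique, hV]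
    simp
    field_simp
    ring

lemma RealKN.step {k N : ℕ} {f : ℝ → ℝ} (h : RealKN k N f) {a b : ℝ} (ha : 0 ≤ a) (hb : 0 ≤ b) :
    RealKN (k + 1) (N + 2)
      (fun x => f (x - a) * (x ^ 2 - ((N + 1) * a + 2 * b) * x + (N + 2) * a * b)) := by
  obtain ⟨V, _, _, Z, W, hV, hZ, hsymm, hnn, hdiag, hZW, hdet⟩ := h
  refine ⟨V ⊕ Fin 2, inferInstance, inferInstance,
    insert (Sum.inr 0) (Z.map Function.Embedding.inl),
    join W ![0, a] !![0, b; b, 0], by simp [hV], ?_, ?_, ?_, ?_, ?_, ?_⟩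
  · rw [card_insert_of_notMem (by simp)]
    simp [hZ]
  · rintro (i | i) (j | j)
    · simp [join, hsymm i]
    · simp [join]
    · simp [join]
    · fin_cases i <;> fin_cases j <;> simp [join]
  · rintro (i | i) (j | j)
    · simp [join, hnn]
    · fin_cases j <;> simp [join, ha]
    · fin_cases i <;> simp [join, ha]
    · fin_cases i <;> fin_cases j <;> simp [join, hb]
  · rintro (i | i)
    · simp [join, hdiag]
    · fin_cases i <;> simp [join]
  · intro i hi j hj
    rcases mem_insert.1 hi with rfl | hi <;> rcases mem_insert.1 hj with rfl | hj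
    · simp [join]
    · obtain ⟨j, hj, rfl⟩ := mem_map.1 hj
      simp [join]
    · obtain ⟨i, hi, rfl⟩ := mem_map.1 hi
      simp [join]
    · obtain ⟨i, hi', rfl⟩ := mem_map.1 hi
      obtain ⟨j, hj', rfl⟩ := mem_map.1 hj
      simp [join, hZW i hi' j hj']
  · filter_upwards [eventually_shift hdet a, eventually_gt_atTop a] with x hx hxa
    have hne : x - a ≠ 0 := by linarith
    have hs : ∑ j : Fin 2, (![0, a] : Fin 2 → ℝ) j = a := by simp
    rw [det_join _ _ _ (by rw [hs]; exact hne), hs, hx, det_fin_two, hV]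
    simp
    field_simp
    ring

lemma realKN_base : RealKN 0 1 (fun _ => 1) := by
  refine ⟨Unit, inferInstance, inferInstance, ∅, 0, by simp, by simp, by simp, by simp, by simp,
    by simp, ?_⟩
  filter_upwards with x
  simp [lap]

lemma realKN_complete {ι : Type} [DecidableEq ι] (n : ℕ) :
    ∀ (S : Finset ι) (l : ι → ℝ), S.card = n → (∀ i ∈ S, 0 ≤ l i) →
      RealKN 0 (n + 1) (fun x => ∏ i ∈ S, (x - l i)) := by
  induction n with
  | zero =>
    intro S l hS _
    rw [card_eq_zero] at hS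
    subst hS
    simpa using realKN_base
  | succ n ih =>
    intro S l hS hl
    obtain ⟨i₀, hi₀, hmin⟩ := exists_min_image S l (card_pos.1 (by omega))
    have hpos : (0 : ℝ) < (n : ℝ) + 2 := by positivity
    set a : ℝ := l i₀ / ((n : ℝ) + 2) with ha
    have ha0 : 0 ≤ a := div_nonneg (hl i₀ hi₀) hpos.le
    have ha1 : a ≤ l i₀ := div_le_self (hl i₀ hi₀) (by linarith [Nat.cast_nonneg (α := ℝ) n])
    have h1 := ih (S.erase i₀) (fun i => l i - a) (by rw [card_erase_of_mem hi₀, hS]; rfl)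
      (fun i hi => by have := hmin i (mem_of_mem_erase hi); linarith)
    refine (h1.cone ha0).congr fun x => ?_
    rw [← mul_prod_erase S _ hi₀, mul_comm]
    congr 1
    · rw [ha]
      push_cast
      field_simp
      ring
    · apply prod_congr rfl
      intro i _
      ring

lemma exists_ab {h x y : ℝ} (hh : 0 ≤ h) (hx : 0 ≤ x) (hy : 6 * x ≤ y) :
    ∃ a b : ℝ, 0 ≤ a ∧ 0 ≤ b ∧ (h + 1) * a + 2 * b = x + y ∧ (h + 2) * a * b = x * y ∧
      (h + 1) * a ≤ 4 * x := by
  have h2 : 0 < h + 2 := by linarith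
  have h1 : 0 < h + 1 := by linarith
  set θ : ℝ := 2 * (h + 1) / (h + 2) with hθ
  have hθ0 : 0 ≤ θ := by positivity
  have hθ2 : θ ≤ 2 := by
    rw [hθ, div_le_iff₀ h2]; linarith
  have hxy : 0 ≤ x * y := mul_nonneg hx (by linarith)
  have hD : 0 ≤ (x + y) ^ 2 - 4 * θ * (x * y) := by nlinarith
  set D := √((x + y) ^ 2 - 4 * θ * (x * y)) with hDdef
  have hD0 : 0 ≤ D := Real.sqrt_nonneg _
  have hD2 : D ^ 2 = (x + y) ^ 2 - 4 * θ * (x * y) := Real.sq_sqrt hD
  have hθxy : 0 ≤ θ * (x * y) := mul_nonneg hθ0 hxy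
  have hDle : D ≤ x + y := by
    apply le_of_sq_le_sq _ (by linarith) 
    nlinarith
  refine ⟨(x + y - D) / 2 / (h + 1), (x + y + D) / 4, by
    apply div_nonneg _ h1.le; linarith, by linarith, ?_, ?_, ?_⟩
  · field_simp
    ring
  · have : (h + 2) * ((x + y - D) / 2 / (h + 1)) * ((x + y + D) / 4) =
        (h + 2) / (8 * (h + 1)) * ((x + y) ^ 2 - D ^ 2) := by
      field_simp
      ring
    rw [this, hD2, hθ]
    field_simp
    ring
  · have : (h + 1) * ((x + y - D) / 2 / (h + 1)) = (x + y - D) / 2 := by field_simp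
    rw [this]
    by_contra hcon
    push Not at hcon
    have h3 : D < y - 7 * x := by linarith
    have h4 : D ^ 2 < (y - 7 * x) ^ 2 := by nlinarith
    nlinarith

lemma realKN_steps {ι : Type} [DecidableEq ι] (k : ℕ) :
    ∀ (n : ℕ) (S : Finset ι) (l : ι → ℝ) (p q : Fin k → ι) (ρ : ℝ), S.card = n + 2 * k →
      Function.Injective p → Function.Injective q → (∀ i j, p i ≠ q j) → (∀ j, p j ∈ S) →
      (∀ j, q j ∈ S) → 0 ≤ ρ → (∀ i ∈ S, k * ρ ≤ l i) → (∀ j, 4 * l (p j) ≤ ρ * (n + 2)) →
      (∀ j, 6 * l (p j) ≤ l (q j)) →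
      RealKN k (n + 2 * k + 1) (fun x => ∏ i ∈ S, (x - l i)) := by
  induction k with
  | zero =>
    intro n S l p q ρ hS _ _ _ _ _ _ hl _ _
    exact realKN_complete n S l hS (fun i hi => by simpa using hl i hi)
  | succ k ih =>
    intro n S l p q ρ hS hp hq hpq hpS hqS hρ hl hsmall hratio
    have hk0 : (0 : ℝ) ≤ k := Nat.cast_nonneg k
    have hn0 : (0 : ℝ) ≤ n := Nat.cast_nonneg n
    have hl0 : ∀ i ∈ S, ρ + k * ρ ≤ l i := by
      intro i hi
      have := hl i hi
      push_cast at this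
      linarith
    have hkρ : 0 ≤ (k : ℝ) * ρ := mul_nonneg hk0 hρ
    obtain ⟨a, b, ha, hb, hsum, hprod, hale⟩ := exists_ab (h := ((n + 2 * k + 1 : ℕ) : ℝ))
      (x := l (p 0)) (y := l (q 0)) (by positivity) (by have := hl0 _ (hpS 0); linarith) (hratio 0)
    have haρ : a ≤ ρ := by
      have h1 := hsmall 0
      have h2 : ((n : ℝ) + 2) * a ≤ (((n + 2 * k + 1 : ℕ) : ℝ) + 1) * a := by
        apply mul_le_mul_of_nonneg_right _ ha
        push_cast
        linarith
      have h3 : ((n : ℝ) + 2) * a ≤ ((n : ℝ) + 2) * ρ := by linarith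
      exact le_of_mul_le_mul_left h3 (by linarith)
    have hq0 : q 0 ∈ S.erase (p 0) := mem_erase.2 ⟨(hpq 0 0).symm, hqS 0⟩
    have h1 := ih n ((S.erase (p 0)).erase (q 0)) (fun i => l i - a) (fun j => p j.succ)
      (fun j => q j.succ) ρ
      (by rw [card_erase_of_mem hq0, card_erase_of_mem (hpS 0), hS]; omega)
      (hp.comp (Fin.succ_injective k)) (hq.comp (Fin.succ_injective k)) (fun i j => hpq _ _)
      (fun j => mem_erase.2 ⟨hpq _ _, mem_erase.2 ⟨fun h => Fin.succ_ne_zero j (hp h), hpS _⟩⟩)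
      (fun j => mem_erase.2 ⟨fun h => Fin.succ_ne_zero j (hq h),
        mem_erase.2 ⟨(hpq _ _).symm, hqS _⟩⟩) hρ
      (fun i hi => by have := hl0 i (mem_of_mem_erase (mem_of_mem_erase hi)); linarith)
      (fun j => by have := hsmall j.succ; linarith)
      (fun j => by have := hratio j.succ; linarith)
    have h2 := h1.step ha hb
    have h3 : n + 2 * (k + 1) + 1 = n + 2 * k + 1 + 2 := by ring
    rw [h3]
    refine h2.congr fun x => ?_
    rw [← mul_prod_erase S _ (hpS 0), ← mul_prod_erase _ _ hq0, hsum, hprod, ← mul_assoc, mul_comm]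
    congr 1
    · ring
    · apply prod_congr rfl
      intro i _
      ring

end Pool.Agent.MP_0d7d6c_co
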