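import Mathlib

namespace Pool.Agent.MP_0d7d6c_co

open MeasureTheory
open scoped ENNReal Classical

/-- The weight matrix `W_w` of a weighting `w` of the edges of `G`. -/
noncomputable def weightMatrix {N : ℕ} (G : SimpleGraph (Fin N)) (w : Sym2 (Fin N) → ℝ) :
    Matrix (Fin N) (Fin N) ℝ :=
  Matrix.of fun i j => if G.Adj i j then w s(i, j) else 0

/-- The weighted Laplacian `L_w = D_w - W_w`. -/
noncomputable def weightedLaplacian {N : ℕ} (G : SimpleGraph (Fin N)) (w : Sym2 (Fin N) → ℝ) :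
    Matrix (Fin N) (Fin N) ℝ :=
  Matrix.diagonal (fun i => ∑ j, weightMatrix G w i j) - weightMatrix G w

/-- The tuple `x` is realizable by `G`. -/
def Realizable {N : ℕ} (G : SimpleGraph (Fin N)) (x : Fin (N - 1) → ℝ) : Prop :=
  ∃ w : Sym2 (Fin N) → ℝ, (∀ e, 0 ≤ w e) ∧
    (weightedLaplacian G w).charpoly.roots = 0 ::ₘ Finset.univ.val.map x

/-- The simplex `R` of nonnegative `M`-tuples with sum one. -/
def simplex (M : ℕ) : Set (EuclideanSpace ℝ (Fin M)) :=
  {x | ∑ i, x i = 1 ∧ ∀ i, 0 ≤ x i}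

/-- The proportion `P(G)` of the simplex, for `(N - 2)`-dimensional volume, realizable by `G`. -/
noncomputable def realizableFraction {N : ℕ} (G : SimpleGraph (Fin N)) : ℝ≥0∞ :=
  μHE[N - 2] {x ∈ simplex (N - 1) | Realizable G x} / μHE[N - 2] (simplex (N - 1))

/-- The suspension of `G`: the new vertex `Fin.last N` is adjacent to every old vertex. -/
def suspension {N : ℕ} (G : SimpleGraph (Fin N)) : SimpleGraph (Fin (N + 1)) :=
  SimpleGraph.fromRel fun x y =>
    x = Fin.last N ∨ ∃ a b, G.Adj a b ∧ x = a.castSucc ∧ y = b.castSucc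

/-- The `n`-fold suspension of `G`. -/
def iterSuspension {N : ℕ} (G : SimpleGraph (Fin N)) : (n : ℕ) → SimpleGraph (Fin (N + n))
  | 0 => G
  | n + 1 => suspension (iterSuspension G n)

end Pool.Agent.MP_0d7d6c_co
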