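import Pool.Agent.MP_0d7d6c_co.Defs

namespace Pool.Agent.MP_0d7d6c_co

open MeasureTheory Finset Set
open scoped ENNReal Pointwise NNReal

/-- Forget the last coordinate. -/
noncomputable def projL (d : ℕ) : EuclideanSpace ℝ (Fin (d + 1)) →ₗ[ℝ] (Fin d → ℝ) where
  toFun x := fun i => x i.castSucc
  map_add' x y := by ext i; simp
  map_smul' c x := by ext i; simp

/-- Complete a vector to a vector with sum zero. -/
noncomputable def liftL (d : ℕ) : (Fin d → ℝ) →ₗ[ℝ] EuclideanSpace ℝ (Fin (d + 1)) where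
  toFun y := WithLp.toLp 2 (Fin.snoc (α := fun _ => ℝ) y (-∑ i, y i))
  map_add' x y := by
    ext i
    induction i using Fin.lastCases with
    | last => simp [sum_add_distrib]; ring
    | cast i => simp
  map_smul' c x := by
    ext i
    induction i using Fin.lastCases with
    | last => simp [mul_sum]
    | cast i => simp

lemma hausdorff_pi (d : ℕ) : (μH[(d : ℝ)] : Measure (Fin d → ℝ)) = volume := by
  have := hausdorffMeasure_pi_real (ι := Fin d)
  rwa [Fintype.card_fin] at this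

lemma simplex_ne_zero' (d : ℕ) : μH[(d : ℝ)] (simplex (d + 1)) ≠ 0 := by
  intro h0
  have hL := (LinearMap.toContinuousLinearMap (projL d)).lipschitz
  have h1 := hL.hausdorffMeasure_image_le (d := (d : ℝ)) (by positivity) (simplex (d + 1))
  rw [h0, mul_zero, hausdorff_pi] at h1
  have hsub : Icc (0 : Fin d → ℝ) (fun _ => 1 / ((d : ℝ) + 1)) ⊆
      (LinearMap.toContinuousLinearMap (projL d)) '' simplex (d + 1) := by
    rintro y ⟨hy0, hy1⟩
    refine ⟨WithLp.toLp 2 (Fin.snoc (α := fun _ => ℝ) y (1 - ∑ i, y i)), ⟨?_, ?_⟩, ?_⟩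
    · simp [Fin.sum_univ_castSucc]
    · intro i
      induction i using Fin.lastCases with
      | last =>
        have h2 : ∑ i, y i ≤ ∑ _i : Fin d, 1 / ((d : ℝ) + 1) := sum_le_sum fun i _ => hy1 i
        have h3 : ∑ _i : Fin d, 1 / ((d : ℝ) + 1) ≤ 1 := by
          simp only [sum_const, card_univ, Fintype.card_fin, nsmul_eq_mul]
          rw [mul_one_div, div_le_one (by positivity)]
          linarith
        simp only [Fin.snoc_last]
        linarith
      | cast i => simpa using hy0 i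
    · ext i
      simp [projL]
  have h2 := (measure_mono hsub).trans h1
  rw [Real.volume_Icc_pi, nonpos_iff_eq_zero, prod_eq_zero_iff] at h2
  obtain ⟨i, -, hi⟩ := h2
  rw [ENNReal.ofReal_eq_zero] at hi
  have : (0 : ℝ) < 1 / ((d : ℝ) + 1) := by positivity
  simp only [Pi.zero_apply, sub_zero] at hi
  linarith

lemma simplex_ne_top' (d : ℕ) : μH[(d : ℝ)] (simplex (d + 1)) ≠ ⊤ := by
  have hL := (LinearMap.toContinuousLinearMap (liftL d)).lipschitz
  have h1 := hL.hausdorffMeasure_image_le (d := (d : ℝ)) (by positivity)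
    (Icc (0 : Fin d → ℝ) (fun _ => 1))
  rw [hausdorff_pi, Real.volume_Icc_pi] at h1
  have hsub : simplex (d + 1) ⊆ (EuclideanSpace.single (Fin.last d) (1 : ℝ)) +ᵥ
      ((LinearMap.toContinuousLinearMap (liftL d)) '' Icc (0 : Fin d → ℝ) (fun _ => 1)) := by
    rintro x ⟨hx1, hx0⟩
    refine ⟨_, ⟨fun i => x i.castSucc, ⟨fun i => hx0 _, fun i => ?_⟩, rfl⟩, ?_⟩
    · rw [← hx1]
      exact single_le_sum (f := fun i => x i) (fun i _ => hx0 i) (Finset.mem_univ _)
    · ext i
      rw [Fin.sum_univ_castSucc] at hx1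
      induction i using Fin.lastCases with
      | last => simp [liftL]; linarith
      | cast i => simp [liftL, (Fin.castSucc_lt_last i).ne]
  refine ne_top_of_le_ne_top ?_ (measure_mono hsub)
  rw [hausdorffMeasure_vadd _ (Or.inl (by positivity))]
  refine ne_top_of_le_ne_top ?_ h1
  apply ENNReal.mul_ne_top
  · exact ENNReal.rpow_ne_top_of_nonneg (by positivity) ENNReal.coe_ne_top
  · simp

lemma simplex_ne_zero (d : ℕ) : μHE[d] (simplex (d + 1)) ≠ 0 := by
  rw [Measure.euclideanHausdorffMeasure_def, Measure.smul_apply, ENNReal.smul_def, smul_eq_mul]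
  exact mul_ne_zero
    (by simpa using Measure.addHaarScalarFactor_volume_hausdorffMeasure_ne_zero d)
    (simplex_ne_zero' d)

lemma simplex_ne_top (d : ℕ) : μHE[d] (simplex (d + 1)) ≠ ⊤ := by
  rw [Measure.euclideanHausdorffMeasure_def, Measure.smul_apply, ENNReal.smul_def, smul_eq_mul]
  exact ENNReal.mul_ne_top ENNReal.coe_ne_top (simplex_ne_top' d)

lemma measure_shift (d : ℕ) (v : Fin (d + 1) → ℝ) (hv : ∀ i, 0 ≤ v i) (hs : ∑ i, v i < 1) :
    μHE[d] {x ∈ simplex (d + 1) | ∀ i, v i ≤ x i} =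
      ENNReal.ofReal ((1 - ∑ i, v i) ^ d) * μHE[d] (simplex (d + 1)) := by
  set c : ℝ := 1 - ∑ i, v i with hc
  have hc0 : 0 < c := by linarith
  have hset : {x ∈ simplex (d + 1) | ∀ i, v i ≤ x i} =
      (fun y => (WithLp.toLp 2 v : EuclideanSpace ℝ (Fin (d + 1))) + y) ''
        (c • simplex (d + 1)) := by
    ext x
    constructor
    · rintro ⟨⟨hx1, hx0⟩, hxv⟩
      refine ⟨x - WithLp.toLp 2 v, ⟨c⁻¹ • (x - WithLp.toLp 2 v), ⟨?_, ?_⟩, ?_⟩, by simp⟩
      · simp only [PiLp.smul_apply, PiLp.sub_apply, smul_eq_mul]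
        rw [← mul_sum, sum_sub_distrib, hx1, ← hc]
        exact inv_mul_cancel₀ hc0.ne'
      · intro i
        simp only [PiLp.smul_apply, PiLp.sub_apply, smul_eq_mul]
        exact mul_nonneg (inv_nonneg.2 hc0.le) (by linarith [hxv i])
      · simp only
        rw [smul_inv_smul₀ hc0.ne']
    · rintro ⟨_, ⟨y, ⟨hy1, hy0⟩, rfl⟩, rfl⟩
      have h1 : ∀ i, 0 ≤ c * y i := fun i => mul_nonneg hc0.le (hy0 i)
      refine ⟨⟨?_, fun i => ?_⟩, fun i => ?_⟩
      · simp only [PiLp.add_apply, PiLp.smul_apply, smul_eq_mul]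
        rw [sum_add_distrib, ← mul_sum, hy1]
        linarith
      · simp only [PiLp.add_apply, PiLp.smul_apply, smul_eq_mul]
        linarith [hv i, h1 i]
      · simp only [PiLp.add_apply, PiLp.smul_apply, smul_eq_mul]
        linarith [h1 i]
  rw [hset, (isometry_add_left _).euclideanHausdorffMeasure_image,
    Measure.euclideanHausdorffMeasure_smul₀ d hc0.ne', ENNReal.smul_def, smul_eq_mul]
  congr 1
  rw [ENNReal.ofReal_pow hc0.le, ENNReal.coe_pow, ← Real.enorm_eq_ofReal hc0.le]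
  rfl

end Pool.Agent.MP_0d7d6c_co
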