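import Pool.Agent.MP_0d7d6c_co.Transfer
import Pool.Agent.MP_0d7d6c_co.Volume

namespace Pool.Agent.MP_0d7d6c_co

open MeasureTheory Finset Filter Topology
open scoped ENNReal

lemma good_realizable {d k : ℕ} (hk : 0 < k) (hd : 4 * k ≤ d + 1) {δ : ℝ} (hδ : 0 < δ)
    (G : SimpleGraph (Fin (d + 2)))
    (hG : ∀ i j : Fin (d + 2), i ≠ j → (k ≤ (i : ℕ) ∨ k ≤ (j : ℕ)) → G.Adj i j)
    (x : Fin (d + 1) → ℝ)
    (hx : ∀ i : Fin (d + 1), k * (8 * δ / ((d : ℝ) + 1) ^ 2) +
      (if (i : ℕ) < k then 6 * (δ / ((d : ℝ) + 1)) else 0) ≤ x i)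
    (hsmall : ∀ j : Fin k, ∃ i : Fin (d + 1), (i : ℕ) / ((d + 1) / k) = j ∧
      x i < δ / ((d : ℝ) + 1)) : Realizable G x := by
  choose p hp1 hp2 using hsmall
  have hτ : 0 < δ / ((d : ℝ) + 1) := by positivity
  have hρ : 0 ≤ 8 * δ / ((d : ℝ) + 1) ^ 2 := by positivity
  have hkρ : 0 ≤ k * (8 * δ / ((d : ℝ) + 1) ^ 2) := by positivity
  let q : Fin k → Fin (d + 1) := fun j => ⟨j, by have := j.isLt; omega⟩
  have hq : ∀ j, 6 * (δ / ((d : ℝ) + 1)) ≤ x (q j) := by
    intro j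
    have := hx (q j)
    rw [if_pos j.isLt] at this
    linarith
  obtain ⟨n, hn⟩ : ∃ n, d + 1 = n + 2 * k := ⟨d + 1 - 2 * k, by omega⟩
  apply realizable_of_realKN G hG
  have h1 := realKN_steps k n univ x p q (8 * δ / ((d : ℝ) + 1) ^ 2) (by simpa using hn)
    (fun a b hab => Fin.ext (by rw [← hp1 a, ← hp1 b, hab]))
    (fun a b hab => Fin.ext (show ((q a : Fin (d + 1)) : ℕ) = q b from congrArg Fin.val hab))
    (fun i j hij => by have := hp2 i; have := hq j; rw [hij] at *; linarith)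
    (fun _ => mem_univ _) (fun _ => mem_univ _) hρ
    (fun i _ => by
      have := hx i
      split_ifs at this <;> linarith)
    (fun j => by
      have h2 := hp2 j
      have h3 : (d : ℝ) + 1 ≤ 2 * n := by
        have : d + 1 ≤ 2 * n := by omega
        exact_mod_cast this
      have h4 : 4 * (δ / ((d : ℝ) + 1)) ≤ 8 * δ / ((d : ℝ) + 1) ^ 2 * ((n : ℝ) + 2) := by
        have h5 : 8 * δ / ((d : ℝ) + 1) ^ 2 * ((n : ℝ) + 2) =
            4 * (δ / ((d : ℝ) + 1)) * (2 * ((n : ℝ) + 2) / ((d : ℝ) + 1)) := by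
          field_simp
          ring
        rw [h5]
        apply le_mul_of_one_le_right (by positivity)
        rw [le_div_iff₀ (by positivity)]
        linarith
      linarith)
    (fun j => by have := hp2 j; have := hq j; linarith)
  rw [← hn] at h1
  exact h1

lemma card_group {M g j : ℕ} (hg : 0 < g) (h : (j + 1) * g ≤ M) :
    (univ.filter (fun i : Fin M => (i : ℕ) / g = j)).card = g := by
  have h1 : (Ico (j * g) ((j + 1) * g)).card = g := by
    rw [Nat.card_Ico, add_mul, one_mul]; omega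
  refine Eq.trans ?_ h1
  apply card_bij (fun (i : Fin M) _ => (i : ℕ))
  · intro i hi
    have := (mem_filter.1 hi).2
    rw [mem_Ico]
    exact ⟨(Nat.le_div_iff_mul_le hg).1 this.ge, (Nat.div_lt_iff_lt_mul hg).1 (by omega)⟩
  · intro a _ b _ hab
    exact Fin.ext hab
  · intro b hb
    rw [mem_Ico] at hb
    refine ⟨⟨b, by omega⟩, ?_, rfl⟩
    simp only [mem_filter, mem_univ, true_and]
    have h2 := (Nat.le_div_iff_mul_le hg).2 hb.1
    have h3 := (Nat.div_lt_iff_lt_mul hg).2 hb.2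
    omega

lemma fraction_le_one {N : ℕ} (G : SimpleGraph (Fin N)) : realizableFraction G ≤ 1 := by
  unfold realizableFraction
  apply ENNReal.div_le_of_le_mul
  rw [one_mul]
  exact measure_mono (Set.sep_subset _ _)

lemma fraction_ge {d k : ℕ} (hk : 0 < k) (hd : 4 * k ≤ d + 1) {δ : ℝ} (hδ : 0 < δ)
    (hδ1 : 14 * k * δ < 1) (G : SimpleGraph (Fin (d + 2)))
    (hG : ∀ i j : Fin (d + 2), i ≠ j → (k ≤ (i : ℕ) ∨ k ≤ (j : ℕ)) → G.Adj i j) :
    ENNReal.ofReal (1 - 14 * k * δ - k * (1 - δ / (2 * k)) ^ d)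
      ≤ realizableFraction G := by
  have hkR : (1 : ℝ) ≤ k := by exact_mod_cast hk
  have hdR : (0 : ℝ) ≤ d := Nat.cast_nonneg d
  have hD : (0 : ℝ) < (d : ℝ) + 1 := by positivity
  set g := (d + 1) / k with hg
  have hg0 : 0 < g := Nat.div_pos (by omega) hk
  have hgk : g * k ≤ d + 1 := Nat.div_mul_le_self _ _
  have hgk2 : d + 1 ≤ 2 * (g * k) := by
    have h1 := Nat.div_add_mod (d + 1) k
    have h2 := Nat.mod_lt (d + 1) hk
    rw [← hg, mul_comm] at h1
    omega
  let v : Fin (d + 1) → ℝ := fun i => k * (8 * δ / ((d : ℝ) + 1) ^ 2) +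
      (if (i : ℕ) < k then 6 * (δ / ((d : ℝ) + 1)) else 0)
  let u : Fin k → Fin (d + 1) → ℝ := fun j i => if (i : ℕ) / g = j then δ / ((d : ℝ) + 1) else 0
  have hv0 : ∀ i, 0 ≤ v i := by
    intro i
    simp only [v]
    split_ifs <;> positivity
  have hu0 : ∀ j i, 0 ≤ u j i := by
    intro j i
    simp only [u]
    split_ifs <;> positivity
  have hvs : ∑ i, v i = 14 * k * δ / ((d : ℝ) + 1) := by
    simp only [v]
    rw [sum_add_distrib, ← sum_filter, sum_const, sum_const, Fin.card_filter_val_lt,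
      min_eq_right (by omega)]
    simp only [card_univ, Fintype.card_fin, nsmul_eq_mul]
    push_cast
    field_simp
    ring
  have hus : ∀ j, ∑ i, u j i = g * (δ / ((d : ℝ) + 1)) := by
    intro j
    simp only [u]
    rw [← sum_filter, sum_const, card_group hg0, nsmul_eq_mul]
    have := j.isLt
    calc ((j : ℕ) + 1) * g ≤ k * g := Nat.mul_le_mul_right _ (by omega)
      _ ≤ d + 1 := by rw [mul_comm]; exact hgk
  have hδ2 : δ < 1 := by nlinarith
  have hvs1 : ∑ i, v i < 1 := by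
    rw [hvs, div_lt_one hD]; linarith
  have hgR : (g : ℝ) * k ≤ d + 1 := by exact_mod_cast hgk
  have hgR2 : (d : ℝ) + 1 ≤ 2 * (g * k) := by exact_mod_cast hgk2
  have hgR0 : (0 : ℝ) ≤ g := Nat.cast_nonneg g
  have hus1 : ∀ j, ∑ i, u j i < 1 := by
    intro j
    rw [hus, ← mul_div_assoc, div_lt_one hD]
    nlinarith
  have hsub : {x ∈ simplex (d + 1) | ∀ i, v i ≤ x i} ⊆
      {x ∈ simplex (d + 1) | Realizable G x} ∪
        ⋃ j : Fin k, {x ∈ simplex (d + 1) | ∀ i, u j i ≤ x i} := by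
    rintro x ⟨hxR, hxv⟩
    by_cases h : ∀ j : Fin k, ∃ i : Fin (d + 1), (i : ℕ) / g = j ∧ x i < δ / ((d : ℝ) + 1)
    · left
      exact ⟨hxR, good_realizable hk hd hδ G hG x hxv h⟩
    · right
      push Not at h
      obtain ⟨j, hj⟩ := h
      refine Set.mem_iUnion.2 ⟨j, hxR, fun i => ?_⟩
      simp only [u]
      split_ifs with hi
      · exact hj i hi
      · exact hxR.2 i
  have h1 := (measure_mono (μ := μHE[d]) hsub).trans
    ((measure_union_le _ _).trans (add_le_add le_rfl (measure_iUnion_fintype_le _ _)))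
  simp_rw [measure_shift d v hv0 hvs1, fun j => measure_shift d (u j) (hu0 j) (hus1 j), hus] at h1
  rw [sum_const, card_univ, Fintype.card_fin, nsmul_eq_mul, hvs] at h1
  change _ ≤ μHE[d] {x ∈ simplex (d + 1) | Realizable G x} / μHE[d] (simplex (d + 1))
  rw [ENNReal.le_div_iff_mul_le (Or.inl (simplex_ne_zero d)) (Or.inl (simplex_ne_top d))]
  set β : ℝ := (1 - δ / (2 * k)) ^ d with hβ
  have hb1 : 0 ≤ 1 - g * (δ / ((d : ℝ) + 1)) := by
    have := hus1 ⟨0, hk⟩
    rw [hus] at this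
    linarith
  have hb2 : (1 - g * (δ / ((d : ℝ) + 1))) ^ d ≤ β := by
    apply pow_le_pow_left₀ hb1
    have h3 : δ / (2 * k) ≤ g * (δ / ((d : ℝ) + 1)) := by
      rw [← mul_div_assoc, div_le_div_iff₀ (by positivity) hD]
      nlinarith
    linarith
  have hβ0 : 0 ≤ β := (pow_nonneg hb1 d).trans hb2
  have ha : 1 - 14 * k * δ ≤ (1 - 14 * k * δ / ((d : ℝ) + 1)) ^ d := by
    have h2 : 14 * k * δ / ((d : ℝ) + 1) < 1 := by rw [← hvs]; exact hvs1
    have h3 := one_add_mul_le_pow (a := -(14 * k * δ / ((d : ℝ) + 1))) (by linarith) d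
    have h4 : (d : ℝ) * (14 * k * δ / ((d : ℝ) + 1)) ≤ 14 * k * δ := by
      rw [← mul_div_assoc, div_le_iff₀ hD]
      have : 0 ≤ 14 * k * δ := by positivity
      nlinarith
    rw [← sub_eq_add_neg] at h3
    linarith
  have h5 : ENNReal.ofReal (1 - 14 * k * δ) * μHE[d] (simplex (d + 1)) ≤
      μHE[d] {x ∈ simplex (d + 1) | Realizable G x} +
        ENNReal.ofReal (k * β) * μHE[d] (simplex (d + 1)) := by
    calc _ ≤ ENNReal.ofReal ((1 - 14 * k * δ / ((d : ℝ) + 1)) ^ d) * μHE[d] (simplex (d + 1)) := by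
          gcongr
      _ ≤ _ := h1
      _ ≤ _ := by
          rw [ENNReal.ofReal_mul (by positivity), ENNReal.ofReal_natCast, mul_assoc]
          gcongr
  rw [ENNReal.ofReal_sub _ (by positivity), ENNReal.sub_mul (fun _ _ => simplex_ne_top d),
    tsub_le_iff_right]
  exact h5

theorem main {N : ℕ} (G : SimpleGraph (Fin N)) :
    Tendsto (fun n => realizableFraction (iterSuspension G n)) atTop (𝓝 1) := by
  rw [tendsto_order]
  refine ⟨fun a ha => ?_, fun a ha => Eventually.of_forall fun n =>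
    (fraction_le_one _).trans_lt ha⟩
  obtain ⟨r, hr0, har, hr1⟩ := ENNReal.lt_iff_exists_real_btwn.1 ha
  rw [ENNReal.ofReal_lt_one] at hr1
  set k := N + 1 with hk
  have hk0 : 0 < k := by omega
  have hkR : (1 : ℝ) ≤ k := by exact_mod_cast hk0
  set δ : ℝ := (1 - r) / (28 * k) with hδ
  have hδ0 : 0 < δ := div_pos (by linarith) (by positivity)
  have hδ1 : 14 * k * δ = (1 - r) / 2 := by rw [hδ]; field_simp; ring
  have hδ2 : δ < 1 := by nlinarith
  have hq0 : 0 ≤ 1 - δ / (2 * k) := by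
    have : δ / (2 * k) ≤ 1 := by rw [div_le_one (by positivity)]; linarith
    linarith
  have hq1 : 1 - δ / (2 * k) < 1 := by
    have : 0 < δ / (2 * k) := by positivity
    linarith
  have hlim : Tendsto (fun d : ℕ => (k : ℝ) * (1 - δ / (2 * k)) ^ d) atTop (𝓝 0) := by
    simpa using (tendsto_pow_atTop_nhds_zero_of_lt_one hq0 hq1).const_mul (k : ℝ)
  obtain ⟨d₀, hd₀⟩ := eventually_atTop.1
    (hlim.eventually (gt_mem_nhds (show (0 : ℝ) < (1 - r) / 2 by linarith)))
  have key : ∀ (M : ℕ) (H : SimpleGraph (Fin M)), d₀ + 4 * k + 2 ≤ M →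
      (∀ i j : Fin M, i ≠ j → (k ≤ (i : ℕ) ∨ k ≤ (j : ℕ)) → H.Adj i j) →
      ENNReal.ofReal r ≤ realizableFraction H := by
    intro M H hM hH
    obtain ⟨d, rfl⟩ : ∃ d, M = d + 2 := ⟨M - 2, by omega⟩
    refine le_trans (ENNReal.ofReal_le_ofReal ?_)
      (fraction_ge hk0 (by omega) hδ0 (by linarith) H hH)
    have h1 := hd₀ d (by omega)
    linarith
  filter_upwards [eventually_ge_atTop (d₀ + 4 * k + 2)] with n hn
  refine har.trans_le (key _ _ (by omega) fun i j hij h => iter_adj G n i j hij ?_)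
  omega

end Pool.Agent.MP_0d7d6c_co
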