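import Pool.Agent.MP_0d7d6c_co.Defs
import Pool.Agent.MP_0d7d6c_co.Algebra

namespace Pool.Agent.MP_0d7d6c_co

open Matrix Finset Filter Polynomial

lemma exists_equiv {V : Type} [Fintype V] [DecidableEq V] (Z : Finset V) {N k : ℕ}
    (hV : Fintype.card V = N) (hZ : Z.card = k) :
    ∃ e : V ≃ Fin N, ∀ v, v ∈ Z ↔ (e v : ℕ) < k := by
  have hk : k ≤ N := by rw [← hZ, ← hV]; exact card_le_univ Z
  have h1 : Fintype.card {v // v ∈ Z} = Fintype.card {i : Fin N // (i : ℕ) < k} := by
    rw [Fintype.card_coe, hZ, Fintype.card_subtype]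
    simp [Fin.card_filter_val_lt, hk]
  have h2 : Fintype.card {v // ¬ v ∈ Z} = Fintype.card {i : Fin N // ¬ (i : ℕ) < k} := by
    rw [Fintype.card_subtype_compl, Fintype.card_subtype_compl, h1, hV, Fintype.card_fin]
  let e1 := Fintype.equivOfCardEq h1
  let e2 := Fintype.equivOfCardEq h2
  refine ⟨(Equiv.sumCompl (fun v => v ∈ Z)).symm.trans
    ((e1.sumCongr e2).trans (Equiv.sumCompl (fun i : Fin N => (i : ℕ) < k))), fun v => ?_⟩
  by_cases hv : v ∈ Z
  · simp only [hv, Equiv.trans_apply, true_iff]
    rw [Equiv.sumCompl_symm_apply_of_pos (p := fun v => v ∈ Z) hv]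
    exact (e1 ⟨v, hv⟩).2
  · simp only [hv, Equiv.trans_apply, false_iff]
    rw [Equiv.sumCompl_symm_apply_of_neg (p := fun v => v ∈ Z) hv]
    exact (e2 ⟨v, hv⟩).2

lemma realizable_of_realKN {N k : ℕ} (G : SimpleGraph (Fin N))
    (hG : ∀ i j : Fin N, i ≠ j → (k ≤ (i : ℕ) ∨ k ≤ (j : ℕ)) → G.Adj i j) (x : Fin (N - 1) → ℝ)
    (h : RealKN k N (fun t => ∏ i, (t - x i))) : Realizable G x := by
  obtain ⟨V, _, _, Z, W, hV, hZ, hsymm, hnn, hdiag, hZW, hdet⟩ := h
  obtain ⟨e, he⟩ := exists_equiv Z hV hZ
  let w : Sym2 (Fin N) → ℝ := Sym2.lift ⟨fun i j => W (e.symm i) (e.symm j), fun i j => hsymm _ _⟩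
  have hW : weightMatrix G w = W.submatrix e.symm e.symm := by
    ext i j
    simp only [weightMatrix, of_apply, submatrix_apply, w, Sym2.lift_mk]
    split_ifs with hadj
    · rfl
    · by_cases hij : i = j
      · subst hij
        exact (hdiag _).symm
      · have := mt (hG i j hij) hadj
        push Not at this
        exact (hZW _ ((he _).2 (by simpa using this.1)) _ ((he _).2 (by simpa using this.2))).symm
  refine ⟨w, ?_, ?_⟩
  · intro s
    induction s using Sym2.ind with
    | _ i j => exact hnn _ _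
  · have hL : ∀ t : ℝ, scalar (Fin N) t - weightedLaplacian G w =
        (scalar V t - lap W).submatrix e.symm e.symm := by
      intro t
      ext i j
      rw [weightedLaplacian, hW]
      have hs : ∑ j, W (e.symm i) (e.symm j) = ∑ j, W (e.symm i) j :=
        e.symm.sum_comp (fun j => W (e.symm i) j)
      by_cases hij : i = j
      · subst hij
        simp [lap, hs]
      · have : e.symm i ≠ e.symm j := fun h => hij (e.symm.injective h)
        simp [lap, hij, this]
    have hc : (weightedLaplacian G w).charpoly =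
        ((0 ::ₘ Finset.univ.val.map x).map fun a => X - C a).prod := by
      apply eq_of_infinite_eval_eq
      obtain ⟨b, hb⟩ := eventually_atTop.1 hdet
      apply (Set.Ici_infinite b).mono
      intro t ht
      simp only [Set.mem_ofPred_eq]
      rw [Matrix.eval_charpoly, hL, det_submatrix_equiv_self, hb t ht]
      simp only [Multiset.map_cons, Multiset.prod_cons, Multiset.map_map, eval_mul]
      rw [← Finset.prod_eq_multiset_prod, eval_prod]
      simp
    rw [hc, roots_multiset_prod_X_sub_C]

lemma iter_adj {N : ℕ} (G : SimpleGraph (Fin N)) (n : ℕ) :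
    ∀ i j : Fin (N + n), i ≠ j → (N ≤ (i : ℕ) ∨ N ≤ (j : ℕ)) → (iterSuspension G n).Adj i j := by
  induction n with
  | zero =>
    intro i j _ h
    have := i.isLt
    have := j.isLt
    omega
  | succ n ih =>
    intro i j hij h
    change (suspension (iterSuspension G n)).Adj i j
    unfold suspension
    rw [SimpleGraph.fromRel_adj]
    refine ⟨hij, ?_⟩
    rcases Fin.eq_castSucc_or_eq_last (n := N + n) i with ⟨a, rfl⟩ | rfl
    · rcases Fin.eq_castSucc_or_eq_last (n := N + n) j with ⟨b, rfl⟩ | rfl
      · left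
        right
        exact ⟨a, b, ih a b (fun hab => hij (by rw [hab])) h, rfl, rfl⟩
      · right
        left
        rfl
    · left
      left
      rfl

end Pool.Agent.MP_0d7d6c_co
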